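import Pool.Agent.H28.HP.Main

/-!
# MP_557161_ag: the pole formula for almost all Weil polynomials of any weight with a given Newton
polygon

Let `p` be a prime and `q = p ^ m`. Fix a weight `n`, a degree `2 g` and a symmetric polygon with the
slopes `s 0 ≤ ... ≤ s (g - 1) ≤ n / 2`, not all equal to `n / 2` (for instance the Newton polygon of
the transcendental cohomology of K3 surfaces of height `h` and Picard number `22 - 2 g`, with the
slopes `1 - 1 / h` (`h` times), `1`, `1 + 1 / h` (`h` times); or a Hodge polygon). There are finitely
many integral polynomials `f` of degree `2 g` whose complex roots all have the absolute value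
`q ^ (n / 2)` (with constant term `q ^ (n g)`), and whose Newton polygon is not below the polygon and
passes through the points of the polygon in a given set `T` (if `T` contains all vertices, then the
Newton polygon of `f` is the given one). Their number tends to infinity with `m`.

Let `n i, g i, s i, T i`, for `i` in a finite set, be such data, let `E` be a number field in the
complex numbers and `r < g i` for all `i`.

**For all but at most `ε * ∏ i, #(polynomials)` of the tuples of such polynomials, for all large
`m`, the following holds.** Let `Y` be any smooth projective variety whose cohomology is spanned by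
algebraic classes (for instance a product of projective spaces), and `X_i`, for all `i`, **any**
smooth projective variety of dimension `n i` over `Y` with a model over the field with `q = p ^ m`
elements, whose cohomology is the sum of the pull-back of the cohomology of `Y` and of a subspace of
the cohomology of degree `n i` on which the Frobenius endomorphism has the characteristic polynomial
`f i`. Then for **all products** `X` of copies of `Y` and of the varieties `X_i` (over an algebraic
closure of the finite field, for the zeta functions over all sufficiently large finite fields):

* the Riemann hypothesis holds for `X`, and Tate's formula holds for `X` in all codimensions: the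
  order of the pole at `s = j` is the rank of the group of the cycles of codimension `j` modulo
  numerical equivalence;
* for all varieties `U` with the Riemann hypothesis (by Deligne: for all `U`) such that the
  eigenvalues of Frobenius on the cohomology of `U` have rank at most `r` over `E`, the ranks and
  the defects `δ_c` in Tate's formula satisfy `ρ_c(X × U) = ∑_{i + j = c} ρ_i(X) ρ_j(U)` and
  `δ_c(X × U) = ∑_{i + j = c} ρ_i(X) δ_j(U)`, so that Tate's formula for `X × U` in codimension `c`
  is equivalent to Tate's formula for `U` in the codimensions `j = c - i` with `ρ_i(X) ≠ 0`.
-/

set_option autoImplicit false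

open CategoryTheory AlgebraicGeometry Polynomial

universe u v

namespace Pool.Agent.Results.MP_557161_ag.GivenNewtonPolygons

open Pool.Agent.H28.HP

/-- **The pole formula for the products of all varieties with almost all tuples of Weil polynomials
with given Newton polygons.** -/
theorem result {p : ℕ} (hp : p.Prime) {I : Type} [Fintype I] (n g : I → ℕ) (s : I → ℕ → ℚ)
    (T : I → Set ℕ) (hs : ∀ i, IsPolygon (n i) (g i) (s i) (T i))
    (E : Subfield ℂ) [NumberField E] (r : ℕ) (hr : ∀ i, r < g i) {ε : ℝ} (hε : 0 < ε) (N : ℕ) :
    ∃ m₀ : ℕ, ∀ m ≥ m₀,
      (∀ i, (weilPolysAbove p m (n i) (g i) (s i) (T i)).Finite ∧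
        N ≤ (weilPolysAbove p m (n i) (g i) (s i) (T i)).ncard) ∧
      ({f : I → ℤ[X] | (∀ i, f i ∈ weilPolysAbove p m (n i) (g i) (s i) (T i)) ∧
        ¬ AllProducts.{u, v} p m n E r f}.ncard : ℝ) ≤
      ε * ∏ i, ((weilPolysAbove p m (n i) (g i) (s i) (T i)).ncard : ℝ) :=
  main hp hs E r hr hε N

end Pool.Agent.Results.MP_557161_ag.GivenNewtonPolygons
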