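import Pool.Agent.H61.GX.Pole

/-!
# The orders of the poles of the zeta functions of `Z × X^n` at single integers

In the intended use the varieties are the smooth projective ones over an algebraic closure of a
finite field, `W` is an `l`-adic cohomology with coefficients in an algebraic closure of `ℚ_l`, and
`Φ` are the Frobenius endomorphisms of models of the varieties. For a variety `Y` and an integer `i`
let `z(Y, i)` be the order of the pole at `i` of the zeta function of `Y` over all sufficiently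
large finite fields, and `r(Y, i)` the rank of the group of the cycles of codimension `i` on `Y`
modulo numerical equivalence. Tate's formula for `Y` and `i` is the equality `z(Y, i) = r(Y, i)`.

Let `X` and `Z` be varieties with divisors of nonvanishing self-intersection number (for example
ample ones), `dim X > 0`. There are `N` in `{1, 2, …, ∞}` and integers `1 ≤ q ≤ r ≤ b(Z)`, where
`b(Z)` is the total Betti number, such that for all integers `i_n`, `j_n` at bounded distance from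
`n dim X / 2`:

* `z(X^n, i_n) / r(X^n, j_n)` tends to `N`;
* `z(Z × X^n, i_n) / z(X^n, j_n)` tends to `r` and `r(Z × X^n, i_n) / r(X^n, j_n)` tends to `q`;
* `z(Z × X^n, i_n) / r(Z × X^n, j_n)` tends to `N r / q`;
* `N = 1` iff Tate's formula holds for all powers of `X` and all integers, and `N = 1`, `r = q` iff
  it holds for all products `Z × X^n` and all integers; otherwise `r(Z × X^n, i)` is asymptotically
  at most `max(1/2, 1 - 1/b(Z))` times `z(Z × X^n, i)`, uniformly in the integers `i` at bounded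
  distance from `n dim X / 2`.
-/

set_option autoImplicit false

open CategoryTheory AlgebraicGeometry Filter Topology

open scoped ENNReal

universe u v

namespace Pool.Agent.Results.MP_557161_ag.LocalIndexLaw

open Pool.Agent.H914 Pool.Agent.H914.VarClass Pool.Agent.H914.VarClass.Obj
  Pool.Agent.H914.WeilCohomology Pool.Agent.W534 Pool.Agent.H61.GX
open Pool.Agent.Y163 (Big PoleOrderIs poleOrderIs)
open Pool.Agent.Y133.Half (pw)

variable {k : Type u} [Field k] {𝒱 : VarClass k} {ops : CycleOps 𝒱}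

/-- **The local index law for the orders of the poles of zeta functions.** -/
theorem result (W : WeilCohomology.{u, v} ops) [IsAlgClosed W.K] (ch : ℕ) (hch : ch.Prime)
    (Φ : FrobSystem W ch) (σ : W.K →+* ℂ) (hRH : ∀ Y : 𝒱.Obj, RiemannHyp Φ σ Y)
    (X Z : 𝒱.Obj) (hX : 0 < X.dim) (hDX : ∃ D, X.IsCyc 1 D ∧ Big ops X D)
    (hDZ : ∃ D, Z.IsCyc 1 D ∧ Big ops Z D) :
    ∃ z : 𝒱.Obj → ℕ → ℕ, (∀ Y, ∀ i ≤ Y.dim, PoleOrderIs Φ σ Y i (z Y i)) ∧
      ∃ (N : ℕ∞) (q r : ℕ), 1 ≤ N ∧ 1 ≤ q ∧ q ≤ r ∧ r ≤ Module.finrank W.K (W.H Z) ∧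
      (∀ i j : ℕ → ℕ, NearMiddle X i → NearMiddle X j →
        Tendsto (fun n => (z (pw X n) (i n) : ℝ≥0∞) / numRank ops (pw X n) (j n)) atTop
          (𝓝 (N : ℝ≥0∞)) ∧
        Tendsto (fun n => (z (Z.prod (pw X n)) (i n) : ℝ≥0∞) / z (pw X n) (j n)) atTop
          (𝓝 (r : ℝ≥0∞)) ∧
        Tendsto (fun n => (numRank ops (Z.prod (pw X n)) (i n) : ℝ≥0∞) /
          numRank ops (pw X n) (j n)) atTop (𝓝 (q : ℝ≥0∞)) ∧
        Tendsto (fun n => (z (Z.prod (pw X n)) (i n) : ℝ≥0∞) /
          numRank ops (Z.prod (pw X n)) (j n)) atTop (𝓝 ((N : ℝ≥0∞) * ((r : ℝ≥0∞) / q)))) ∧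
      (N = 1 ↔ ∀ n, ∀ j ≤ (pw X n).dim, PoleFormula Φ σ (pw X n) j) ∧
      ((N = 1 ∧ r = q) ↔ ∀ n, ∀ j ≤ (Z.prod (pw X n)).dim,
        PoleFormula Φ σ (Z.prod (pw X n)) j) ∧
      (¬ (N = 1 ∧ r = q) → ∀ (J : ℕ) (ε : ℝ), 0 < ε → ∃ n₀ : ℕ, ∀ n ≥ n₀, ∀ i : ℕ,
        |2 * (i : ℤ) - (n + 1) * X.dim| ≤ J → (numRank ops (Z.prod (pw X n)) i : ℝ) ≤
          (max (1 / 2 : ℝ) (1 - 1 / Module.finrank W.K (W.H Z)) + ε) *
            z (Z.prod (pw X n)) i) := by
  obtain ⟨D, hD, hD'⟩ := hDX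
  obtain ⟨E, hE, hE'⟩ := hDZ
  exact ⟨zz Φ, fun Y i hi => poleOrderIs hch.one_lt (hRH Y) hi,
    local_index hch.one_lt hRH hD hD' hX hE hE'⟩

end Pool.Agent.Results.MP_557161_ag.LocalIndexLaw
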