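import Pool.Agent.H50.WR.D

/-!
# One order of pole of one Weil restriction decides Tate's formula for all powers of a variety

Let `X` be a smooth projective variety over the field with `q₀ = p ^ e` elements, `d` its dimension,
`b` its total Betti number and `D` a common denominator of the slopes of its Newton polygons, and
`N = powerBound b D = 2 b (4 D b ^ 2 + 1) ^ b`. `W` is a Weil cohomology theory (for instance
`ℓ`-adic cohomology) on the smooth projective varieties over the algebraic closure of this field
(a class `𝒱` of smooth proper varieties which is closed under products), `Φ` the system of Frobenius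
endomorphisms, and `E` is a divisor on `X` with `E ^ d ≠ 0` which is defined over the ground field.

*Weil restrictions.* Let `q = q₀ ^ s` (`card Φ X s`). The Weil restriction
`R = Res_{F_{q ^ (n + 1)} / F_q} X` is a twisted form of the power `X ^ (n + 1)`: over the algebraic
closure it is this power, and its Frobenius endomorphism relative to the field with `q` elements is
`(x₀, …, xₙ) ↦ (F x₁, …, F xₙ, F x₀)`, with `F = Fr X ^ s` (`weilFrob`). Its zeta function `zetaOf`
and the group of its cycles modulo numerical equivalence (`rationalRank`: the cycles over the algebraic
closure the numerical classes of which are invariant under the Frobenius) are much smaller than those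
of the power: only the classes which are compatible with the cyclic rotation of the factors count.

*Theorem.* There is a positive integer `τ` such that for all `n`, `s > 0` such that `τ` divides
`s (n + 1)`, and for each integer `c` with `N d ≤ c ≤ (n - N) d` the following are equivalent:
* the order of the pole at `c` of the zeta function of the single variety
  `Res_{F_{q ^ (n + 1)} / F_q} X` over the field with `q = q₀ ^ s` elements is the rank of the group
  of its cycles of codimension `c` modulo numerical equivalence;
* Tate's formula for the orders of the poles holds for all powers of `X`, at all integers, over all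
  sufficiently large finite fields (`PoleFormula`).
They imply Tate's formula for all powers of `X` and for all Weil restrictions
`Res_{F_{q ^ (n + 1)} / F_q} X`, at all integers, over **all** finite fields, of any size (`FormulaOver`).
For example, for `s = 1` (the ground field itself) the orders at one integer of the zeta functions of
`Res_{F_{q₀ ^ m} / F_{q₀}} X`, for one sufficiently large multiple `m` of `τ`, decides everything.

*Proof.* A Tate class on a power `X ^ k`, `k ≤ N`, which is an external product of basis vectors
(generalised eigenvectors of the Frobenius), is completed by powers of the class of `E` and by units to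
a class `w` on `X ^ (n + 1)` of codimension `c`. Its twisted average `∑ ζ ^ a (rot ^ a) ^* w`, for a
suitable root of unity `ζ` of order dividing `n + 1`, is a generalised eigenvector of the
Frobenius endomorphism of the Weil restriction for the eigenvalue `q ^ c`, so it is algebraic by the
formula. External products of simple algebraic correspondences kill all nontrivial rotations and
remove the completion, so the given class is algebraic. The powers with at most `N` factors suffice,
by the pigeonhole principle for Weil numbers.
-/

open CategoryTheory AlgebraicGeometry

universe u v

namespace Pool.Agent.Results.MP_557161_ag.WeilRestrictions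

open Pool.Agent.H914 Pool.Agent.W534 VarClass Obj WeilCohomology Pool.Agent.H50.WR
open Pool.Agent.Y163 (pw Big)
open Pool.Agent.R940 (HasIntegralPolys IsSlopeDenominator powerBound)

/-- **One order of pole of one Weil restriction decides Tate's formula for all powers.** -/
theorem result {k : Type u} [Field k] {𝒱 : VarClass k} {ops : CycleOps 𝒱}
    (W : WeilCohomology.{u, v} ops) [IsAlgClosed W.K] (σ : W.K →+* ℂ) (p : ℕ) [Fact p.Prime]
    (Φ : FrobSystem W p) (hRH : ∀ Z : 𝒱.Obj, RiemannHyp Φ σ Z) (X : 𝒱.Obj)
    (hint : HasIntegralPolys Φ σ X) (E : X.Cycles) (hE : X.IsCyc 1 E) (hbig : Big ops X E)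
    (hFE : W.map (Φ.Fr X) (W.cl X E) = ((p : W.K) ^ Φ.e X) • W.cl X E) (D : ℕ)
    (hD : IsSlopeDenominator Φ σ X D) (N : ℕ)
    (hN : N = powerBound (Module.finrank W.K (W.H X)) D) :
    (∃ τ : ℕ, 0 < τ ∧ ∀ n s c : ℕ, 0 < s → τ ∣ s * (n + 1) → N * X.dim ≤ c →
      c + N * X.dim ≤ n * X.dim →
        (FormulaOver W σ (weilFrob Φ X n s) (Pool.Agent.W534.card Φ X s) c ↔
          ∀ m j, j ≤ (pw X m).dim → PoleFormula Φ σ (pw X m) j)) ∧
    ((∀ m j, j ≤ (pw X m).dim → PoleFormula Φ σ (pw X m) j) →
      ∀ n s j : ℕ, 0 < s → j ≤ (pw X n).dim →
        FormulaOver W σ (weilFrob Φ X n s) (Pool.Agent.W534.card Φ X s) j ∧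
        FormulaOver W σ (Pool.Agent.W534.iter (Φ.Fr (pw X n)) s)
          (Pool.Agent.W534.card Φ (pw X n) s) j) := by
  subst hN
  exact weil_main hRH hint hE hbig hFE hD

end Pool.Agent.Results.MP_557161_ag.WeilRestrictions
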