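import Pool.Agent.H50.WA.Main

/-!
# The index law for the orders of the poles of the zeta functions of Weil restrictions

Let `X` be a smooth projective variety of positive dimension over the field with `q₀ = p ^ e`
elements. `W` is a Weil cohomology theory with coefficients in an algebraically closed field (for
instance `ℓ`-adic cohomology) on the smooth projective varieties over the algebraic closure of this
field (a class `𝒱` of smooth proper varieties which is closed under products), `Φ` the system of
Frobenius endomorphisms, and `E` is a divisor on `X` with `E ^ (dim X) ≠ 0`.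

*Weil restrictions.* Let `q = q₀ ^ s` (`card Φ X s`) and `m = n + 1`. The Weil restriction
`R = Res_{F_{q ^ m} / F_q} X` is a twisted form of the power `X ^ m`: over the algebraic closure it is
this power, and its Frobenius endomorphism relative to the field with `q` elements is
`(x₀, …, xₙ) ↦ (F x₁, …, F xₙ, F x₀)` with `F = Fr X ^ s` (`weilFrob`). Let `y (n, s)` be the sum of
the orders of the poles of the zeta function of `R` over the field with `q` elements at the integers
`0, …, dim R` (`IsPoleSum`), and let `rankSum` be the rank of the group of the cycles of all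
codimensions on the model `R` over the field with `q` elements, modulo numerical equivalence: the
cycles over the algebraic closure the numerical classes of which are invariant under this Frobenius.
Let `z n` and `cycRank` be the corresponding numbers for the power `X ^ (n + 1)` over all sufficiently
large finite fields.

*Theorem.* There are `N` in `{1, 2, 3, …, ∞}` and a positive integer `τ` such that
* `N = 1` if and only if Tate's formula for the orders of the poles holds for all powers of `X`, at
  all integers (over all sufficiently large finite fields);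
* the quotients `z n / cycRank (X ^ (n + 1))` for the powers tend to `N`;
* for all sequences of `n → ∞` and of `s > 0` such that `τ` divides `s (n + 1)` the quotients
  `y (n, s) / rankSum` for the Weil restrictions `Res_{F_{q ^ (n + 1)} / F_q} X` tend to the same `N`.
  For example, for `s = 1` (the ground field itself) the `n + 1` are multiples of `τ`; for `s = τ` the
  `n` are arbitrary;
* moreover `(n + 1) y (n, s) / z n` tends to `1`: the generalised Tate classes are equidistributed
  among the `n + 1` possible eigenvalues of the twisted Frobenius endomorphism;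
* in particular, if for some `ε > 0` the sum of the orders of the poles is at most `2 - ε` times the
  rank of the cycles for Weil restrictions as above with arbitrarily large `n`, then Tate's formula
  holds for all powers of `X` and for all Weil restrictions `Res_{F_{q ^ (n + 1)} / F_q} X`, at all
  integers, over **all** finite fields, of any size (`FormulaOver`). If it fails for one power, then
  asymptotically at least one half of the orders of the poles of the zeta functions of the Weil
  restrictions does not come from cycles.

Nothing is assumed on the semisimplicity of the Frobenius endomorphisms, on homological and numerical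
equivalence, on the Newton polygons or on the integrality of the characteristic polynomials.

*Proof.* To a word in a homogeneous basis of the cohomology of `X` we attach the set of the
positions of the unit (its pattern). The projectors onto the words with given pattern are algebraic.
For each root of unity `ζ` of order dividing `n + 1` there is a function `θ` on the patterns with
`θ (A + 1) = ζ θ (A)` which vanishes only on the patterns with a rotational symmetry. The sum of the
projectors with the coefficients `θ` is an algebraic operator which multiplies the eigenvalues of the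
twisted Frobenius endomorphism with `ζ`. It preserves the generalised Tate classes, the algebraic
classes and the numerically trivial ones, and its kernel is exponentially small compared with the
space of the generalised Tate classes. So each of the `n + 1` possible eigenvalues has the same share
of these three spaces up to a negligible error, and the index law for the powers can be used.
-/

open CategoryTheory AlgebraicGeometry Filter Topology

open scoped ENNReal

universe u v

namespace Pool.Agent.Results.MP_557161_ag.WeilRestrictionsIndexLaw

open Pool.Agent.H914 Pool.Agent.W534 VarClass Obj WeilCohomology Pool.Agent.H50.WR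
  Pool.Agent.H50.WA
open Pool.Agent.Y163 (pw Big)
open Pool.Agent.Y133.Half (cycRank)
open Pool.Agent.H44T.PT (IsPoleTotal)

/-- **The index law for the Weil restrictions.** -/
theorem result {k : Type u} [Field k] {𝒱 : VarClass k} {ops : CycleOps 𝒱}
    (W : WeilCohomology.{u, v} ops) [IsAlgClosed W.K] (σ : W.K →+* ℂ) (p : ℕ) [Fact p.Prime]
    (Φ : FrobSystem W p) (hRH : ∀ Z : 𝒱.Obj, RiemannHyp Φ σ Z) (X : 𝒱.Obj) (hX : 0 < X.dim)
    (E : X.Cycles) (hE : X.IsCyc 1 E) (hbig : Big ops X E) :
    ∃ N : ℕ∞, 1 ≤ N ∧
      (N = 1 ↔ ∀ n j, j ≤ (pw X n).dim → PoleFormula Φ σ (pw X n) j) ∧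
      ∃ (z : ℕ → ℕ) (y : ℕ → ℕ → ℕ), (∀ n, IsPoleTotal Φ σ (pw X n) (z n)) ∧
        (∀ n s, 0 < s →
          IsPoleSum W σ (weilFrob Φ X n s) (Pool.Agent.W534.card Φ X s) (y n s)) ∧
        Tendsto (fun n => (z n : ℝ≥0∞) / cycRank ops (pw X n)) atTop (𝓝 (N : ℝ≥0∞)) ∧
        ∃ τ : ℕ, 0 < τ ∧
          (∀ ν s : ℕ → ℕ, Tendsto ν atTop atTop → (∀ i, 0 < s i) →
            (∀ i, τ ∣ s i * (ν i + 1)) →
            Tendsto (fun i => (y (ν i) (s i) : ℝ≥0∞) /
              rankSum ops (weilFrob Φ X (ν i) (s i)) (Pool.Agent.W534.card Φ X (s i)))
              atTop (𝓝 (N : ℝ≥0∞)) ∧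
            Tendsto (fun i => (((ν i + 1 : ℕ) : ℝ) * y (ν i) (s i)) / z (ν i)) atTop (𝓝 1)) ∧
          ((∃ ε : ℝ, 0 < ε ∧ ∀ n₀ : ℕ, ∃ n s : ℕ, n₀ ≤ n ∧ 0 < s ∧ τ ∣ s * (n + 1) ∧
              (y n s : ℝ) ≤ (2 - ε) * rankSum ops (weilFrob Φ X n s)
                (Pool.Agent.W534.card Φ X s)) →
            ∀ n s j : ℕ, 0 < s → j ≤ (pw X n).dim →
              FormulaOver W σ (weilFrob Φ X n s) (Pool.Agent.W534.card Φ X s) j ∧
              FormulaOver W σ (Pool.Agent.W534.iter (Φ.Fr (pw X n)) s)
                (Pool.Agent.W534.card Φ (pw X n) s) j) := by
  have hp : Fact p.Prime := inferInstance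
  obtain ⟨N, h1, h2, z, y, h3, h4, h5, τ, hτ, h6⟩ := weil_index hRH hX hE hbig
  refine ⟨N, h1, h2, z, y, h3, h4, h5, τ, hτ, h6, ?_⟩
  rintro ⟨ε, hε, h⟩ n s j hs hj
  have hN : N = 1 := by
    choose ν s' hν hs' hdvd hle using h
    have hν' : Tendsto ν atTop atTop := tendsto_atTop_mono hν tendsto_id
    obtain ⟨k1, k2⟩ := h6 ν s' hν' hs' hdvd
    have hpos : ∀ᶠ i in atTop, 0 < y (ν i) (s' i) := by
      have h7 := k2.eventually (lt_mem_nhds (show (0 : ℝ) < 1 by norm_num))
      filter_upwards [h7] with i hi
      by_contra h0
      have h8 : y (ν i) (s' i) = 0 := by omega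
      rw [h8, Nat.cast_zero, mul_zero, zero_div] at hi
      exact lt_irrefl _ hi
    have hle2 : (N : ℝ≥0∞) ≤ ENNReal.ofReal (2 - ε) := by
      refine le_of_tendsto k1 ?_
      filter_upwards [hpos] with i hi
      set r := rankSum ops (weilFrob Φ X (ν i) (s' i)) (Pool.Agent.W534.card Φ X (s' i)) with hr
      have h9 := hle i
      rw [← hr] at h9
      have hyr : (0 : ℝ) < y (ν i) (s' i) := by exact_mod_cast hi
      have hr0 : 0 < r := by
        by_contra h0
        have h10 : r = 0 := by omega
        rw [h10, Nat.cast_zero, mul_zero] at h9
        exact absurd hyr (not_lt.2 h9)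
      have hr1 : (0 : ℝ) < r := by exact_mod_cast hr0
      rw [ENNReal.div_le_iff (by exact_mod_cast hr0.ne') (ENNReal.natCast_ne_top _),
        ← ENNReal.ofReal_natCast, ← ENNReal.ofReal_natCast r,
        ← ENNReal.ofReal_mul' hr1.le]
      exact ENNReal.ofReal_le_ofReal h9
    have hlt : (N : ℝ≥0∞) < 2 := by
      refine lt_of_le_of_lt hle2 ?_
      rw [show (2 : ℝ≥0∞) = ENNReal.ofReal 2 by simp]
      exact (ENNReal.ofReal_lt_ofReal_iff (by norm_num)).2 (by linarith)
    have hne : N ≠ ⊤ := by
      rintro rfl
      simp at hlt
    obtain ⟨N', rfl⟩ := ENat.ne_top_iff_exists.1 hne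
    have h11 : (N' : ℝ≥0∞) < 2 := by exact_mod_cast hlt
    have h12 : N' < 2 := by exact_mod_cast h11
    have h13 : 1 ≤ N' := by exact_mod_cast h1
    have h14 : N' = 1 := by omega
    rw [h14]
    rfl
  have h7 := h2.1 hN
  have h8 := Pool.Agent.R940.semisimple_of_poles (hRH _) (h7 n)
  exact ⟨formula_of_tate (hRH _) (isFr_weil hp.out.one_lt X n hs) h8 hj,
    formula_of_tate (hRH _) (isFr_frob hp.out.one_lt (pw X n) hs) h8 hj⟩

end Pool.Agent.Results.MP_557161_ag.WeilRestrictionsIndexLaw
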